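import Mathlib

/-! Junk elements far away from the window: one side, in an abstract form. `c x` are the covers of
`x` towards the window, `c' x` those away from it, `T` is the distance, `V` the window. -/

set_option autoImplicit false

namespace Pool.Agent.GaussPoset.Jk

open Finset

universe u

variable {P : Type u} [Fintype P] [DecidableEq P]

/-- one side of a window -/
structure Sid (c c' : P → Finset P) (T : P → ℕ) (Sd V : P → Prop) : Prop where
  dual : ∀ x y, y ∈ c x ↔ x ∈ c' y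
  ne : ∀ x, Sd x → (c x).Nonempty
  tS : ∀ x, Sd x → 1 ≤ T x
  tV : ∀ x, V x → T x = 0
  cin : ∀ x, Sd x → ∀ y ∈ c x, T x = T y + 1 ∧ (Sd y ∨ V y)
  cout : ∀ x, (Sd x ∨ V x) → ∀ z ∈ c' x, Sd z ∧ T z = T x + 1

/-- some element away from the window has a larger label -/
def kd (c' : P → Finset P) (e : P → ℕ) (a : P) : Prop := ∃ z ∈ c' a, e a < e z

/-- some element towards the window has a label at least as large -/
def gu (c : P → Finset P) (e : P → ℕ) (z : P) : Prop := ∃ a ∈ c z, e z ≤ e a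

variable {c c' : P → Finset P} {T : P → ℕ} {Sd V : P → Prop} {e : P → ℕ}

lemma Sid.sd_of (S : Sid c c' T Sd V) {x y : P} (hx : Sd x) (hy : y ∈ c x) (h : 1 ≤ T y) :
    Sd y := by
  rcases (S.cin x hx y hy).2 with h1 | h1
  · exact h1
  · have := S.tV y h1
    omega

/-- sum of the labels at distance at most `n` -/
def sm (T : P → ℕ) (e : P → ℕ) (n : ℕ) : ℕ := ∑ x, if T x ≤ n then e x else 0

lemma sm_le (n : ℕ) : sm T e n ≤ ∑ x, e x := by
  unfold sm
  refine Finset.sum_le_sum fun x _ => ?_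
  split_ifs <;> omega

lemma sm_succ {n : ℕ} {z : P} (h1 : T z = n + 1) : sm T e n + e z ≤ sm T e (n + 1) := by
  unfold sm
  rw [← Finset.add_sum_erase _ _ (mem_univ z), ← Finset.add_sum_erase univ (fun x =>
    if T x ≤ n + 1 then e x else 0) (mem_univ z)]
  rw [if_neg (by omega), if_pos (by omega)]
  have : ∑ x ∈ univ.erase z, (if T x ≤ n then e x else 0) ≤
      ∑ x ∈ univ.erase z, (if T x ≤ n + 1 then e x else 0) := by
    refine Finset.sum_le_sum fun x _ => ?_
    split_ifs <;> omega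
  omega

/-- an element which is not dominated has a large label and a long chain of labels above it -/
lemma chain (S : Sid c c' T Sd V) (adm : ∀ z, Sd z → ¬ (kd c' e z ∧ gu c e z)) :
    ∀ n z, Sd z → T z = n + 1 → ¬ gu c e z →
      n + 1 ≤ e z ∧ (n + 1) * (n + 2) ≤ 2 * sm T e (n + 1) := by
  intro n
  induction n with
  | zero =>
    intro z hz hT hg
    obtain ⟨a, ha⟩ := S.ne z hz
    have h1 : e a < e z := by
      by_contra h
      exact hg ⟨a, ha, by omega⟩
    have h2 := sm_succ (e := e) hT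
    omega
  | succ n ih =>
    intro z hz hT hg
    obtain ⟨a, ha⟩ := S.ne z hz
    have h1 : e a < e z := by
      by_contra h
      exact hg ⟨a, ha, by omega⟩
    have h3 := (S.cin z hz a ha).1
    have h5 : Sd a := S.sd_of hz ha (by omega)
    have h6 : kd c' e a := ⟨z, (S.dual z a).1 ha, h1⟩
    obtain ⟨h7, h8⟩ := ih a h5 (by omega) (fun h => adm a h5 ⟨h6, h⟩)
    have h2 := sm_succ (e := e) hT
    refine ⟨by omega, ?_⟩
    have h9 : (n + 1 + 1) * (n + 1 + 2) = (n + 1) * (n + 2) + 2 * (n + 2) := by ring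
    rw [h9]
    omega

/-- a label two at distance `n` costs at least `2 n - 1` -/
lemma two_label (S : Sid c c' T Sd V) (adm : ∀ z, Sd z → ¬ (kd c' e z ∧ gu c e z)) :
    ∀ n z, (Sd z ∨ V z) → T z = n → 2 ≤ e z → 2 * n ≤ sm T e n + 1 := by
  intro n
  induction n with
  | zero => intro z _ _ _; omega
  | succ n ih =>
    intro z hz hT he
    have hz' : Sd z := by
      rcases hz with h | h
      · exact h
      · have := S.tV z h
        omega
    by_cases hg : gu c e z
    · obtain ⟨a, ha, hle⟩ := hg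
      obtain ⟨h3, h4⟩ := S.cin z hz' a ha
      have h5 := ih a h4 (by omega) (by omega)
      have h2 := sm_succ (e := e) hT
      omega
    · obtain ⟨h1, h2⟩ := chain S adm n z hz' hT hg
      cases n with
      | zero => omega
      | succ n =>
        have h3 : (n + 1 + 1) * (n + 1 + 2) = n * n + 5 * n + 6 := by ring
        rw [h3] at h2
        have h4 : n ≤ n * n := by nlinarith [Nat.zero_le n, sq_nonneg (n : ℤ)]
        omega

section far

variable (S : Sid c c' T Sd V) (adm : ∀ z, Sd z → ¬ (kd c' e z ∧ gu c e z)) {ρ : ℕ}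
  (h6 : ∑ x, e x ≤ 2 * ρ)

include S adm h6

/-- far elements are dominated -/
lemma far_gu {z : P} (hz : Sd z) (hT : ρ + 1 ≤ T z) : gu c e z := by
  by_contra hg
  obtain ⟨n, hn⟩ : ∃ n, T z = n + 1 := ⟨T z - 1, by omega⟩
  obtain ⟨h1, h2⟩ := chain S adm n z hz hn hg
  have h3 := sm_le (T := T) (e := e) (n + 1)
  have h4 : (ρ + 1) * (ρ + 2) ≤ (n + 1) * (n + 2) := Nat.mul_le_mul (by omega) (by omega)
  have h5 : (ρ + 1) * (ρ + 2) = ρ * ρ + 3 * ρ + 2 := by ring
  have h7 : ρ ≤ ρ * ρ := Nat.le_mul_self ρ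
  omega

/-- elements at distance at least `ρ` are not killed -/
lemma far_kd (hρ : 1 ≤ ρ) {z : P} (hz : Sd z) (hT : ρ ≤ T z) : ¬ kd c' e z := by
  intro hk
  by_cases hg : gu c e z
  · exact adm z hz ⟨hk, hg⟩
  · have h0 : T z = ρ := by
      by_contra h
      exact hg (far_gu S adm h6 hz (by omega))
    obtain ⟨n, rfl⟩ : ∃ n, ρ = n + 1 := ⟨ρ - 1, by omega⟩
    obtain ⟨h1, h2⟩ := chain S adm n z hz h0 hg
    obtain ⟨w, hw, hlt⟩ := hk
    obtain ⟨-, h4⟩ := S.cout z (Or.inl hz) w hw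
    have h5 := sm_succ (T := T) (e := e) (n := n + 1) (z := w) (by omega)
    have h3 := sm_le (T := T) (e := e) (n + 1 + 1)
    have h7 : (n + 1) * (n + 2) = n * n + 3 * n + 2 := by ring
    have h8 : n ≤ n * n := Nat.le_mul_self n
    omega

/-- far labels are at most one -/
lemma far_one {z : P} (hz : Sd z) (hT : ρ + 1 ≤ T z) : e z ≤ 1 := by
  by_contra h
  have h1 := two_label S adm (T z) z (Or.inl hz) rfl (by omega)
  have h3 := sm_le (T := T) (e := e) (T z)
  omega

end far

section ind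

variable {f : P → ℕ} {Y : Finset P} {ρ : ℕ}

/-- the indicator of a set -/
def ind (Y : Finset P) : P → ℕ := fun x => if x ∈ Y then 1 else 0

lemma ind_kd (S : Sid c c' T Sd V) (hf : ∀ x, Sd x → ρ + 1 ≤ T x → f x = 0)
    (hY : ∀ x ∈ Y, Sd x ∧ ρ + 1 ≤ T x)
    (hcl : ∀ x ∈ Y, ∀ w ∈ c x, ρ + 1 ≤ T w → w ∈ Y) (hc : ∀ x ∈ Y, ∀ w ∈ c x, T w = ρ → 1 ≤ f w)
    {w : P} (hw : Sd w ∨ V w) :
    kd c' (f + ind Y) w ↔ kd c' f w := by
  have hTw : Sd w → 1 ≤ T w := S.tS w
  by_cases h : T w + 1 ≤ ρ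
  · unfold kd
    have h0 : ind Y w = 0 := by
      unfold ind
      rw [if_neg]
      intro h1
      have := (hY w h1).2
      omega
    have h2 : ∀ z ∈ c' w, ind Y z = 0 := by
      intro z hz
      unfold ind
      rw [if_neg]
      intro h1
      have h3 := (hY z h1).2
      have h4 := (S.cout w hw z hz).2
      omega
    constructor
    · rintro ⟨x, hx, hlt⟩
      refine ⟨x, hx, ?_⟩
      rwa [Pi.add_apply, Pi.add_apply, h0, h2 x hx, add_zero, add_zero] at hlt
    · rintro ⟨x, hx, hlt⟩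
      refine ⟨x, hx, ?_⟩
      rwa [Pi.add_apply, Pi.add_apply, h0, h2 x hx, add_zero, add_zero]
  · constructor
    · rintro ⟨x, hx, hlt⟩
      exfalso
      obtain ⟨h1, h2⟩ := S.cout w hw x hx
      rw [Pi.add_apply, Pi.add_apply, hf x h1 (by omega), zero_add] at hlt
      unfold ind at hlt
      by_cases hxY : x ∈ Y
      · rw [if_pos hxY] at hlt
        have hwx := (S.dual x w).2 hx
        by_cases h3 : ρ + 1 ≤ T w
        · rw [if_pos (hcl x hxY w hwx h3)] at hlt
          omega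
        · have := hc x hxY w hwx (by omega)
          omega
      · rw [if_neg hxY] at hlt
        omega
    · rintro ⟨x, hx, hlt⟩
      exfalso
      obtain ⟨h1, h2⟩ := S.cout w hw x hx
      rw [hf x h1 (by omega)] at hlt
      omega

lemma ind_gu (S : Sid c c' T Sd V) (hf : ∀ x, Sd x → ρ + 1 ≤ T x → f x = 0)
    (hY : ∀ x ∈ Y, Sd x ∧ ρ + 1 ≤ T x)
    (hcl : ∀ x ∈ Y, ∀ w ∈ c x, ρ + 1 ≤ T w → w ∈ Y) (hc : ∀ x ∈ Y, ∀ w ∈ c x, T w = ρ → 1 ≤ f w)
    {w : P} (hw : Sd w) :
    gu c (f + ind Y) w ↔ gu c f w := by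
  by_cases h : T w ≤ ρ
  · unfold gu
    have h0 : ∀ z, T z ≤ ρ → ind Y z = 0 := by
      intro z hz
      unfold ind
      rw [if_neg]
      intro h1
      have := (hY z h1).2
      omega
    constructor
    · rintro ⟨x, hx, hlt⟩
      have h1 := (S.cin w hw x hx).1
      refine ⟨x, hx, ?_⟩
      rwa [Pi.add_apply, Pi.add_apply, h0 w h, h0 x (by omega), add_zero, add_zero] at hlt
    · rintro ⟨x, hx, hlt⟩
      have h1 := (S.cin w hw x hx).1
      refine ⟨x, hx, ?_⟩
      rwa [Pi.add_apply, Pi.add_apply, h0 w h, h0 x (by omega), add_zero, add_zero]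
  · obtain ⟨a, ha⟩ := S.ne w hw
    have h1 := (S.cin w hw a ha).1
    constructor
    · intro _
      exact ⟨a, ha, by rw [hf w hw (by omega)]; exact Nat.zero_le _⟩
    · intro _
      refine ⟨a, ha, ?_⟩
      rw [Pi.add_apply, Pi.add_apply, hf w hw (by omega), zero_add]
      unfold ind
      by_cases hwY : w ∈ Y
      · rw [if_pos hwY]
        by_cases h3 : ρ + 1 ≤ T a
        · rw [if_pos (hcl w hwY a ha h3)]
          omega
        · have := hc w hwY a ha (by omega)
          omega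
      · rw [if_neg hwY]
        exact Nat.zero_le _

/-- an excited element below an element of label zero -/
lemma ind_bad (S : Sid c c' T Sd V) {g : P → ℕ} {z : P} (hz : Sd z) (hT : 2 ≤ T z) (h1 : 1 ≤ g z)
    (hc : ∃ w ∈ c z, g w = 0) :
    ¬ ∀ x, Sd x → ¬ (kd c' g x ∧ gu c g x) := by
  obtain ⟨w, hw, h0⟩ := hc
  intro h
  have h3 : Sd w := S.sd_of hz hw (by have := (S.cin z hz w hw).1; omega)
  refine h w h3 ⟨⟨z, (S.dual z w).1 hw, ?_⟩, ?_⟩
  · omega
  · obtain ⟨a, ha⟩ := S.ne w h3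
    exact ⟨a, ha, by rw [h0]; exact Nat.zero_le _⟩

end ind

end Pool.Agent.GaussPoset.Jk
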