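import Pool.Agent.W_448ev_h24.JkA
import Pool.Agent.W_448co_h5.PartD

/-! Junk elements far below a window: their configurations do not change the window sum of a part if
the restricted sums vanish (MP_448cb3_co, G2). -/

set_option autoImplicit false

namespace Pool.Agent.GaussPoset.Jk

set_option linter.unusedSectionVars false

open Finset Win

universe u

variable {P : Type u} [Fintype P] [PartialOrder P] [DecidableEq P] {r i ρ : ℕ} {e f : P → ℕ}

lemma sid_low (H : Gr P r) (i : ℕ) :
    Sid (P := P) uc dc (fun x => lev x - i) (fun x => i < lev x) (fun x => lev x = i) where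
  dual x y := by rw [mem_uc, mem_dc]
  ne x hx := uc_nonempty H (by omega)
  tS x hx := by omega
  tV x hx := by omega
  cin x hx y hy := by
    have := lev_uc H hy
    omega
  cout x hx z hz := by
    have := lev_dc H hz
    omega

lemma kd_dc {a : P} : kd dc e a ↔ FD e a := by
  unfold kd FD
  simp only [mem_dc]

lemma gu_uc {a : P} : gu uc e a ↔ GU e a := by
  unfold gu GU
  simp only [mem_uc]

lemma adm_low : AdmL i e ↔ ∀ z : P, i < lev z → ¬ (kd dc e z ∧ gu uc e z) := by
  unfold AdmL
  simp only [kd_dc, gu_uc]

/-- the term depends only on the covering comparisons -/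
lemma tC_congr (C : Finset P) (h1 : ∀ z : P, i ≤ lev z → (FD e z ↔ FD f z))
    (h2 : ∀ z : P, i < lev z → (GU e z ↔ GU f z)) (h3 : ∀ z : P, lev z ≤ i → (FU e z ↔ FU f z))
    (h4 : ∀ z : P, lev z < i → (GD e z ↔ GD f z)) : tC i C e = tC i C f := by
  classical
  have a1 : AdmL i e ↔ AdmL i f := by
    unfold AdmL
    refine forall_congr' fun z => imp_congr_right fun hz => ?_
    rw [h1 z hz.le, h2 z hz]
  have a2 : AdmU i e ↔ AdmU i f := by
    unfold AdmU
    refine forall_congr' fun z => imp_congr_right fun hz => ?_
    rw [h3 z hz.le, h4 z hz]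
  have b1 : aL i e = aL i f := by
    unfold aL
    congr 1
    ext z
    simp only [mem_filter, mem_univ, true_and]
    refine and_congr_right fun hz => ?_
    rw [h1 z hz.le]
  have b2 : pL i e = pL i f := by
    unfold pL
    congr 1
    ext z
    simp only [mem_filter, mem_univ, true_and]
    refine and_congr_right fun hz => ?_
    rw [h1 z hz.le, h2 z hz]
  have b3 : aU i e = aU i f := by
    unfold aU
    congr 1
    ext z
    simp only [mem_filter, mem_univ, true_and]
    refine and_congr_right fun hz => ?_
    rw [h3 z hz.le]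
  have b4 : pU i e = pU i f := by
    unfold pU
    congr 1
    ext z
    simp only [mem_filter, mem_univ, true_and]
    refine and_congr_right fun hz => ?_
    rw [h3 z hz.le, h4 z hz]
  have c1 : AL i e = AL i f := by
    ext z
    rw [NormD_mem_AL, NormD_mem_AL]
    refine and_congr_right fun hz => ?_
    rw [h1 z hz.ge]
  have c2 : AU i e = AU i f := by
    ext z
    rw [NormD_mem_AU, NormD_mem_AU]
    refine and_congr_right fun hz => ?_
    rw [h3 z hz.le]
  unfold tC cw
  rw [c1, c2, b1, b2, b3, b4]
  simp only [a1, a2]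

/-- the term of an inadmissible configuration -/
lemma tC_zero (C : Finset P) (h : ¬ AdmL i e) : tC i C e = 0 := by
  have h0 : cw i e = 0 := by
    unfold cw
    exact if_neg fun h1 => h h1.1
  unfold tC
  rw [h0]
  simp

/-- a set of far elements which is closed towards the window does not change the term -/
lemma tC_ind (H : Gr P r) (C : Finset P) {Y : Finset P} (hf : ∀ x, i + ρ < lev x → f x = 0)
    (hY : ∀ x ∈ Y, i + ρ < lev x) (hcl : ∀ x ∈ Y, ∀ w ∈ uc x, i + ρ < lev w → w ∈ Y)
    (hc : ∀ x ∈ Y, ∀ w ∈ uc x, lev w = i + ρ → 1 ≤ f w) (hρ : 1 ≤ ρ) :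
    tC i C (f + ind Y) = tC i C f := by
  have S := sid_low H (P := P) i
  have hY' : ∀ x ∈ Y, i < lev x ∧ ρ + 1 ≤ lev x - i := fun x hx => by
    have := hY x hx
    omega
  have hf' : ∀ x : P, i < lev x → ρ + 1 ≤ lev x - i → f x = 0 := fun x h1 h2 =>
    hf x (by omega)
  have hcl' : ∀ x ∈ Y, ∀ w ∈ uc x, ρ + 1 ≤ lev w - i → w ∈ Y := fun x hx w hw h =>
    hcl x hx w hw (by omega)
  have hc' : ∀ x ∈ Y, ∀ w ∈ uc x, lev w - i = ρ → 1 ≤ f w := fun x hx w hw h =>
    hc x hx w hw (by omega)
  have h0 : ∀ x : P, lev x ≤ i → (f + ind Y) x = f x := by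
    intro x hx
    rw [Pi.add_apply]
    unfold ind
    rw [if_neg, add_zero]
    intro h
    have := hY x h
    omega
  refine tC_congr C ?_ ?_ ?_ ?_
  · intro x hx
    rw [← kd_dc, ← kd_dc]
    exact ind_kd S hf' hY' hcl' hc' (by omega)
  · intro x hx
    rw [← gu_uc, ← gu_uc]
    exact ind_gu S hf' hY' hcl' hc' hx
  · intro x hx
    unfold FU
    refine exists_congr fun y => and_congr_right fun hy => ?_
    have h1 := lev_uc H (mem_uc.2 hy)
    rw [h0 x hx, h0 y (by omega)]
  · intro x hx
    unfold GD
    refine exists_congr fun y => and_congr_right fun hy => ?_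
    have h1 := lev_dc H (mem_dc.2 hy)
    rw [h0 x (by omega), h0 y (by omega)]

lemma mem_pa' {D : Finset P} {n : ℕ} : e ∈ D.piAntidiag n ↔ ∑ x, e x = n ∧ ∀ x, x ∉ D → e x = 0 := by
  rw [mem_piAntidiag]
  constructor
  · rintro ⟨h1, h2⟩
    have h3 : ∀ x, x ∉ D → e x = 0 := by
      intro x hx
      by_contra h
      exact hx (h2 x h)
    refine ⟨?_, h3⟩
    rw [← h1]
    symm
    exact Finset.sum_subset (Finset.subset_univ D) fun x _ hx => h3 x hx
  · rintro ⟨h1, h3⟩
    refine ⟨?_, fun x hx => ?_⟩
    · rw [← h1]
      exact Finset.sum_subset (Finset.subset_univ D) fun x _ hx => h3 x hx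
    · by_contra h
      exact hx (h3 x h)

lemma sum_ind (Y : Finset P) : ∑ x, ind Y x = Y.card := by
  unfold ind
  rw [Finset.sum_ite_mem, univ_inter, Finset.sum_const, smul_eq_mul, mul_one]

/-- the excited far elements -/
noncomputable def jun (i ρ : ℕ) (e : P → ℕ) : Finset P :=
  univ.filter (fun x => i + ρ < lev x ∧ e x ≠ 0)

lemma mem_jun {x : P} : x ∈ jun i ρ e ↔ i + ρ < lev x ∧ e x ≠ 0 := by
  unfold jun
  simp

/-- the part near the window -/
noncomputable def nr (i ρ : ℕ) (e : P → ℕ) (x : P) : ℕ := if lev x ≤ i + ρ then e x else 0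

/-- an admissible configuration is determined by its near part and its set of far elements -/
lemma split_e (H : Gr P r) (h6 : ∑ x, e x ≤ 2 * ρ) (hL : AdmL i e) :
    nr i ρ e + ind (jun i ρ e) = e := by
  have S := sid_low H (P := P) i
  ext x
  rw [Pi.add_apply]
  unfold nr ind
  by_cases h : lev x ≤ i + ρ
  · rw [if_pos h, if_neg, add_zero]
    intro h1
    have := (mem_jun.1 h1).1
    omega
  · rw [if_neg h, zero_add]
    have h1 : e x ≤ 1 := far_one S (adm_low.1 hL) h6 (show i < lev x by omega) (by omega)
    by_cases h2 : e x = 0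
    · rw [if_neg, h2]
      intro h3
      exact (mem_jun.1 h3).2 h2
    · rw [if_pos (mem_jun.2 ⟨by omega, h2⟩)]
      omega

/-- THE JUNK LEMMA: configurations with excited elements below the level `i + ρ` do not contribute
if the sums restricted by lower bounds one on the last row vanish. -/
theorem junk_low (H : Gr P r) {C D : Finset P} (hC : Part i C) {n m : ℕ} (hρ : 1 ≤ ρ)
    (hn : n ≤ 2 * ρ) (hDC : D ⊆ C) (hDJ : ∀ z ∈ D, lev z ≤ i + ρ)
    (hDc : ∀ e : P → ℕ, tC i C e ≠ 0 → ∑ x, e x ≤ n → ∀ z ∈ C, lev z ≤ i + ρ → e z ≠ 0 → z ∈ D)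
    (hX : ∀ X : Finset P, X ⊆ C → (∀ x ∈ X, lev x = i + ρ) → X.Nonempty → ∀ n', n' < n →
      PowerSeries.coeff m (∑ f ∈ D.piAntidiag n',
        (if (∀ x ∈ X, 1 ≤ f x) then tC i C f else 0) : A) = 0) :
    PowerSeries.coeff m (ZC i C n : A) = PowerSeries.coeff m (∑ f ∈ D.piAntidiag n, tC i C f) := by
  classical
  have S := sid_low H (P := P) i
  have hDf : ∀ {n' : ℕ} {f : P → ℕ}, f ∈ D.piAntidiag n' → ∀ x : P, i + ρ < lev x → f x = 0 := by
    intro n' f hf x hx
    exact (mem_pa'.1 hf).2 x fun h => by have := hDJ x h; omega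
  unfold ZC
  -- group by the set of far elements
  have hmaps : ∀ e ∈ C.piAntidiag n, jun i ρ e ∈ (C.filter (fun x => i + ρ < lev x)).powerset := by
    intro e he
    rw [mem_powerset]
    intro x hx
    rw [mem_jun] at hx
    rw [mem_filter]
    refine ⟨?_, hx.1⟩
    by_contra h
    exact hx.2 ((mem_pa'.1 he).2 x h)
  rw [← Finset.sum_fiberwise_of_maps_to hmaps]
  -- the fibre of `Y`
  have fib : ∀ Y ∈ (C.filter (fun x => i + ρ < lev x)).powerset,
      ∑ e ∈ (C.piAntidiag n).filter (fun e => jun i ρ e = Y), tC i C e =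
      if Y.card ≤ n then ∑ f ∈ D.piAntidiag (n - Y.card), tC i C (f + ind Y) else 0 := by
    intro Y hY
    rw [mem_powerset] at hY
    have hY' : ∀ x ∈ Y, x ∈ C ∧ i + ρ < lev x := fun x hx => mem_filter.1 (hY hx)
    split_ifs with hcard
    · have hinj : Function.Injective (fun f : P → ℕ => f + ind Y) := fun f g hfg =>
        add_right_cancel hfg
      rw [← Finset.sum_image (s := D.piAntidiag (n - Y.card)) (g := fun f : P → ℕ => f + ind Y)
        (f := fun e => tC i C e) (fun _ _ _ _ h => hinj h)]
      symm
      refine Finset.sum_subset ?_ ?_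
      · intro e he
        rw [mem_image] at he
        obtain ⟨f, hf, rfl⟩ := he
        have hf2 := mem_pa'.1 hf
        rw [mem_filter, mem_pa']
        refine ⟨⟨?_, fun x hx => ?_⟩, ?_⟩
        · simp only [Pi.add_apply, Finset.sum_add_distrib]
          rw [hf2.1, sum_ind]
          omega
        · rw [Pi.add_apply, hf2.2 x fun h => hx (hDC h)]
          unfold ind
          rw [if_neg fun h => hx (hY' x h).1]
        · ext x
          rw [mem_jun, Pi.add_apply]
          constructor
          · rintro ⟨h1, h2⟩
            rw [hDf hf x h1, zero_add] at h2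
            unfold ind at h2
            by_contra h
            rw [if_neg h] at h2
            exact h2 rfl
          · intro h
            refine ⟨(hY' x h).2, ?_⟩
            unfold ind
            rw [if_pos h]
            omega
      · intro e he hne
        by_contra hc
        rw [mem_filter] at he
        obtain ⟨he1, he2⟩ := he
        have he3 := mem_pa'.1 he1
        have hL : AdmL i e := by
          by_contra h
          exact hc (tC_zero C h)
        have hsp := split_e (ρ := ρ) H (by rw [he3.1]; exact hn) hL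
        rw [he2] at hsp
        refine hne (mem_image.2 ⟨nr i ρ e, ?_, hsp⟩)
        rw [mem_pa']
        constructor
        · have h1 : ∑ x, (nr i ρ e + ind Y) x = n := by rw [hsp]; exact he3.1
          simp only [Pi.add_apply, Finset.sum_add_distrib] at h1
          rw [sum_ind] at h1
          omega
        · intro x hx
          unfold nr
          split_ifs with h
          · by_contra h1
            have hxC : x ∈ C := by
              by_contra h2
              exact h1 (he3.2 x h2)
            exact hx (hDc e hc he3.1.le x hxC h h1)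
          · rfl
    · refine Finset.sum_eq_zero fun e he => ?_
      rw [mem_filter] at he
      exfalso
      have h1 : Y.card ≤ ∑ x, e x := by
        rw [← sum_ind]
        refine Finset.sum_le_sum fun x _ => ?_
        unfold ind
        split_ifs with h
        · rw [← he.2, mem_jun] at h
          omega
        · exact Nat.zero_le _
      rw [(mem_pa'.1 he.1).1] at h1
      exact hcard h1
  rw [Finset.sum_congr rfl fib, map_sum,
    Finset.sum_eq_single_of_mem ∅ (mem_powerset.2 (Finset.empty_subset _))]
  · rw [if_pos (by simp), card_empty, Nat.sub_zero]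
    congr 1
  · intro Y hY hYne
    rw [mem_powerset] at hY
    have hY' : ∀ x ∈ Y, x ∈ C ∧ i + ρ < lev x := fun x hx => mem_filter.1 (hY hx)
    have hYn : Y.Nonempty := Finset.nonempty_iff_ne_empty.2 hYne
    split_ifs with hcard
    swap
    · exact map_zero _
    have hYc : 1 ≤ Y.card := card_pos.2 hYn
    set X : Finset P := univ.filter (fun w => lev w = i + ρ ∧ ∃ x ∈ Y, w ∈ uc x) with hXdef
    have memX : ∀ w, w ∈ X ↔ lev w = i + ρ ∧ ∃ x ∈ Y, w ∈ uc x := fun w => by
      rw [hXdef]
      simp
    by_cases hcl : ∀ x ∈ Y, ∀ w ∈ uc x, i + ρ < lev w → w ∈ Y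
    · have hval : ∀ f ∈ D.piAntidiag (n - Y.card), tC i C (f + ind Y) =
          if (∀ x ∈ X, 1 ≤ f x) then tC i C f else 0 := by
        intro f hf
        split_ifs with hc
        · exact tC_ind H C (hDf hf) (fun x hx => (hY' x hx).2) hcl
            (fun x hx w hw hl => hc w ((memX w).2 ⟨hl, x, hx, hw⟩)) hρ
        · refine tC_zero C fun hL => ?_
          push Not at hc
          obtain ⟨w, hw, h0⟩ := hc
          obtain ⟨hl, x, hx, hwx⟩ := (memX w).1 hw
          have hxl := (hY' x hx).2
          refine ind_bad S (z := x) (by omega) (by omega) ?_ ⟨w, hwx, ?_⟩ (adm_low.1 hL)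
          · rw [Pi.add_apply]
            unfold ind
            rw [if_pos hx]
            omega
          · rw [Pi.add_apply]
            unfold ind
            rw [if_neg]
            · omega
            · intro h
              have := (hY' w h).2
              omega
      rw [Finset.sum_congr rfl hval]
      refine hX X ?_ ?_ ?_ _ (by omega)
      · intro w hw
        obtain ⟨hl, x, hx, hwx⟩ := (memX w).1 hw
        exact hC.up (hY' x hx).1 (mem_uc.1 hwx)
      · intro w hw
        exact ((memX w).1 hw).1
      · obtain ⟨z, hz, hzmin⟩ := Finset.exists_min_image Y (fun x => lev x) hYn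
        have hzl := (hY' z hz).2
        obtain ⟨w, hw⟩ := uc_nonempty H (x := z) (by omega)
        have hwl := lev_uc H hw
        refine ⟨w, (memX w).2 ⟨?_, z, hz, hw⟩⟩
        by_contra h
        have h1 := hcl z hz w hw (by omega)
        have h2 := hzmin w h1
        omega
    · push Not at hcl
      obtain ⟨x, hx, w, hw, hwl, hwY⟩ := hcl
      rw [Finset.sum_eq_zero, map_zero]
      intro f hf
      refine tC_zero C fun hL => ?_
      have hxl := (hY' x hx).2
      refine ind_bad S (z := x) (by omega) (by omega) ?_ ⟨w, hw, ?_⟩ (adm_low.1 hL)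
      · rw [Pi.add_apply]
        unfold ind
        rw [if_pos hx]
        omega
      · rw [Pi.add_apply, hDf hf w hwl]
        unfold ind
        rw [if_neg hwY]

end Pool.Agent.GaussPoset.Jk
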