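import Pool.Agent.W_448ev_h24.JkB
import Pool.Agent.W_448ev_h61.EvH
import Pool.Agent.W_448i2_h61.TC

/-! Junk lemma and evaluator together: window sums of a component from finitely many rows
(MP_448cb3_co, G2). -/

set_option autoImplicit false

namespace Pool.Agent.GaussPoset.Win.Ev

set_option linter.unusedSectionVars false

open Finset

universe u

variable {P : Type u} [Fintype P] [PartialOrder P] [DecidableEq P] {r i j : ℕ}
variable {C : Finset P} {t : P} {lo hi : ℕ → ℕ} {x : ℕ → ℕ → P} {base c0 R s : ℕ} {los his : List ℕ}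

/-- EVALUATION OF THE WHOLE COMPONENT from the rows `base .. base + R - 1`: the rows reach `ρ` levels
below the window, `n ≤ 2 ρ`, and the sums with positive labels on a set of the last row vanish. -/
theorem Loc.eval_all (Lc : Loc P r j t lo hi x C i base c0 R s los his) {p : Prog}
    (hok : okP los his R s p = true) (h0 : lb0 p = true) {m n : ℕ} (hm : m ≤ 2) (hn : n < 32)
    (hsR : s + 1 < R) (hnR : n ≤ 2 * (R - 1 - s)) (htop : base = 0 ∨ n ≤ s)
    (hX : okXs los his R s m n = true) :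
    PowerSeries.coeff m (ZC i C n : A) = ev m p 0 n 0 0 0 := by
  classical
  have hi' := Lc.hi'
  have hJ : base + R = i + (R - 1 - s) + 1 := by omega
  rw [← Lc.eval_cut hok h0 hm hn htop hJ]
  refine Jk.junk_low Lc.h.H Lc.part (by omega) hnR (fun z hz => (mem_DR.1 hz).1)
    (fun z hz => (mem_DR.1 hz).2) (fun e _ _ z hz hl _ => mem_DR.2 ⟨hz, hl⟩) ?_
  intro X hXC hXl hXn n' hn'
  have h1 := Lc.zeroX (X := X) hm (by omega) (by omega) hJ hsR hX
    (fun z hz => ⟨hXC hz, hXl z hz⟩) hXn hn'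
  rw [← h1]

lemma be_eq {n b : ℕ} (hb : 2 ≤ b) (C : Finset P) :
    I2.be n b (ZS i C) = PowerSeries.coeff (b - 2) (ZC i C n : A) := by
  obtain ⟨b, rfl⟩ := Nat.exists_eq_add_of_le hb
  unfold I2.be
  rw [coeff_ZS]
  unfold dd
  rw [add_comm 2 b, PowerSeries.coeff_X_pow_mul, Nat.add_sub_cancel]

lemma al_eq {n b : ℕ} (hb : 1 ≤ b) (C : Finset P) :
    I2.al n b (ZS i C) = PowerSeries.coeff (b - 1) (ZC i C n : A) := by
  obtain ⟨b, rfl⟩ := Nat.exists_eq_add_of_le hb
  unfold I2.al
  rw [coeff_ZS]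
  unfold dd
  rw [add_comm 1 b, PowerSeries.coeff_succ_X_mul, Nat.add_sub_cancel]

/-- the second order coefficient of a component -/
theorem Loc.be_all (Lc : Loc P r j t lo hi x C i base c0 R s los his) {p : Prog}
    (hok : okP los his R s p = true) (h0 : lb0 p = true) {b n : ℕ} (hb : 2 ≤ b) (hb' : b ≤ 4)
    (hn : n < 32) (hsR : s + 1 < R) (hnR : n ≤ 2 * (R - 1 - s)) (htop : base = 0 ∨ n ≤ s)
    (hX : okXs los his R s (b - 2) n = true) :
    I2.be n b (ZS i C) = ev (b - 2) p 0 n 0 0 0 := by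
  rw [be_eq hb]
  exact Lc.eval_all hok h0 (by omega) hn hsR hnR htop hX

/-- the first order coefficient of a component -/
theorem Loc.al_all (Lc : Loc P r j t lo hi x C i base c0 R s los his) {p : Prog}
    (hok : okP los his R s p = true) (h0 : lb0 p = true) {b n : ℕ} (hb : 1 ≤ b) (hb' : b ≤ 3)
    (hn : n < 32) (hsR : s + 1 < R) (hnR : n ≤ 2 * (R - 1 - s)) (htop : base = 0 ∨ n ≤ s)
    (hX : okXs los his R s (b - 1) n = true) :
    I2.al n b (ZS i C) = ev (b - 1) p 0 n 0 0 0 := by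
  rw [al_eq hb]
  exact Lc.eval_all hok h0 (by omega) hn hsR hnR htop hX

end Pool.Agent.GaussPoset.Win.Ev
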